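import Pool.Agent.H32.SAB.TargetsT

/-!
# Row PHYP: splitting off a hyperbolic plane
-/

set_option autoImplicit false

open Polynomial Matrix Pool.Agent.H32.SAB

namespace Pool.Agent.H89.SAB

section

variable {F : Type} [Field F] {n : ℕ}

/-- the bilinear form, as a linear map in the second variable -/
def bl (A : Matrix (Fin n) (Fin n) F) (u : Fin n → F) : (Fin n → F) →ₗ[F] F where
  toFun v := u ⬝ᵥ A *ᵥ v
  map_add' v w := by rw [mulVec_add, dotProduct_add]
  map_smul' c v := by rw [mulVec_smul, dotProduct_smul, RingHom.id_apply]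

lemma bl_apply (A : Matrix (Fin n) (Fin n) F) (u v : Fin n → F) : bl A u v = u ⬝ᵥ A *ᵥ v := rfl

lemma bl_comm {A : Matrix (Fin n) (Fin n) F} (hA : A.IsSymm) (u v : Fin n → F) :
    bl A u v = bl A v u := by
  rw [bl_apply, bl_apply, dotProduct_mulVec, dotProduct_comm, ← mulVec_transpose, hA.eq]

lemma exists_y (h2 : (2 : F) ≠ 0) {A : Matrix (Fin n) (Fin n) F} (hA : A.IsSymm)
    (hd : A.det ≠ 0) {x : Fin n → F} (hx : x ≠ 0) (hxx : bl A x x = 0) :
    ∃ y : Fin n → F, bl A x y = 1 ∧ bl A y y = 0 := by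
  have h0 : A *ᵥ x ≠ 0 := fun h => hx (eq_zero_of_mulVec_eq_zero hd h)
  obtain ⟨i, hi⟩ := Function.ne_iff.1 h0
  rw [Pi.zero_apply] at hi
  have h1 : bl A x (Pi.single i 1) = (A *ᵥ x) i := by
    rw [bl_comm hA, bl_apply, single_dotProduct, one_mul]
  obtain ⟨y1, h3⟩ : ∃ y1 : Fin n → F, bl A x y1 = 1 := by
    refine ⟨((A *ᵥ x) i)⁻¹ • Pi.single i 1, ?_⟩
    rw [map_smul, h1, smul_eq_mul, inv_mul_cancel₀ hi]
  have h4 : bl A y1 x = 1 := by rw [bl_comm hA, h3]
  refine ⟨y1 - (bl A y1 y1 / 2) • x, ?_, ?_⟩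
  · rw [map_sub, map_smul, hxx, smul_zero, sub_zero, h3]
  · have h5 : bl A (y1 - (bl A y1 y1 / 2) • x) y1 = bl A y1 y1 - bl A y1 y1 / 2 := by
      rw [bl_comm hA, map_sub, map_smul, h4, smul_eq_mul, mul_one]
    have h6 : bl A (y1 - (bl A y1 y1 / 2) • x) x = 1 := by
      rw [bl_comm hA, map_sub, map_smul, hxx, h3, smul_zero, sub_zero]
    rw [map_sub, map_smul, h5, h6, smul_eq_mul, mul_one]
    field_simp
    ring

end

theorem pf_HYP : T_HYP := by
  intro F _ h2 n A hA hd ⟨x, hx, hxx⟩
  obtain ⟨y, hxy, hyy⟩ := exists_y h2 hA hd hx hxx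
  have hxx' : bl A x x = 0 := hxx
  have hyx : bl A y x = 1 := by rw [bl_comm hA, hxy]
  -- the orthogonal complement
  set φ : (Fin n → F) →ₗ[F] F × F := (bl A x).prod (bl A y) with hφ
  have hsurj : LinearMap.range φ = ⊤ := by
    rw [LinearMap.range_eq_top]
    rintro ⟨p, q⟩
    refine ⟨p • y + q • x, ?_⟩
    refine Prod.ext ?_ ?_
    · change bl A x (p • y + q • x) = p
      rw [map_add, map_smul, map_smul, hxy, hxx', smul_eq_mul, smul_zero, mul_one, add_zero]
    · change bl A y (p • y + q • x) = q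
      rw [map_add, map_smul, map_smul, hyy, hyx, smul_eq_mul, smul_eq_mul, mul_zero, mul_one,
        zero_add]
  set W := LinearMap.ker φ with hW
  have hrank : 2 + Module.finrank F W = n := by
    have h3 := LinearMap.finrank_range_add_finrank_ker φ
    rw [hsurj, finrank_top, Module.finrank_prod, Module.finrank_self, Module.finrank_fin_fun] at h3
    exact h3
  have hWm : ∀ v ∈ W, bl A x v = 0 ∧ bl A y v = 0 := by
    intro v hv
    have h3 : φ v = 0 := hv
    exact ⟨congrArg Prod.fst h3, congrArg Prod.snd h3⟩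
  set w := Module.finBasis F W with hw
  set m := Module.finrank F W with hm
  set e : Fin 2 ⊕ Fin m ≃ Fin n := finSumFinEquiv.trans (finCongr hrank) with he
  set c : Fin 2 ⊕ Fin m → (Fin n → F) := Sum.elim ![x, y] (fun k => (w k : Fin n → F)) with hc
  set B : Matrix (Fin m) (Fin m) F := Matrix.of fun k l => bl A (w k : Fin n → F) (w l) with hB
  set C : Matrix (Fin n) (Fin n) F := Matrix.of fun i j => c (e.symm j) i with hC
  have hgram : ∀ s t, bl A (c s) (c t) = Matrix.fromBlocks !![0, 1; 1, 0] 0 0 B s t := by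
    rintro (s | s) (t | t)
    · rw [Matrix.fromBlocks_apply₁₁]
      fin_cases s <;> fin_cases t
      · exact hxx'
      · exact hxy
      · exact hyx
      · exact hyy
    · rw [Matrix.fromBlocks_apply₁₂]
      fin_cases s
      · exact (hWm _ (w t).2).1
      · exact (hWm _ (w t).2).2
    · rw [Matrix.fromBlocks_apply₂₁, bl_comm hA]
      fin_cases t
      · exact (hWm _ (w s).2).1
      · exact (hWm _ (w s).2).2
    · rfl
  have hCAC : Cᵀ * A * C = Matrix.reindex e e (Matrix.fromBlocks !![0, 1; 1, 0] 0 0 B) := by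
    ext i j
    rw [Matrix.reindex_apply, Matrix.submatrix_apply, ← hgram, Matrix.mul_mul_apply]
    rfl
  have hli : LinearIndependent F c := by
    rw [Fintype.linearIndependent_iff]
    intro g hg
    rw [Fintype.sum_sum_type, Fin.sum_univ_two] at hg
    have e0 : c (Sum.inl 0) = x := rfl
    have e1 : c (Sum.inl 1) = y := rfl
    have e2 : ∀ k, c (Sum.inr k) = (w k : Fin n → F) := fun _ => rfl
    simp only [e0, e1, e2] at hg
    have g1 : g (Sum.inl 1) = 0 := by
      have h3 := congrArg (bl A x) hg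
      rw [map_add, map_add, map_smul, map_smul, map_sum, hxx', hxy, map_zero] at h3
      have h4 : ∀ k, bl A x (g (Sum.inr k) • (w k : Fin n → F)) = 0 := by
        intro k
        rw [map_smul, (hWm _ (w k).2).1, smul_zero]
      simp only [h4, Finset.sum_const_zero, smul_eq_mul, mul_one, mul_zero, zero_add,
        add_zero] at h3
      exact h3
    have g0 : g (Sum.inl 0) = 0 := by
      have h3 := congrArg (bl A y) hg
      rw [map_add, map_add, map_smul, map_smul, map_sum, hyx, hyy, map_zero] at h3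
      have h4 : ∀ k, bl A y (g (Sum.inr k) • (w k : Fin n → F)) = 0 := by
        intro k
        rw [map_smul, (hWm _ (w k).2).2, smul_zero]
      simp only [h4, Finset.sum_const_zero, smul_eq_mul, mul_one, mul_zero, zero_add,
        add_zero] at h3
      exact h3
    rw [g0, g1, zero_smul, zero_smul, zero_add, zero_add] at hg
    have hwl : LinearIndependent F (fun k => (w k : Fin n → F)) :=
      w.linearIndependent.map' W.subtype (Submodule.ker_subtype W)
    rw [Fintype.linearIndependent_iff] at hwl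
    rintro (s | s)
    · fin_cases s
      · exact g0
      · exact g1
    · exact hwl _ hg s
  have hCu : IsUnit C := by
    rw [← Matrix.linearIndependent_cols_iff_isUnit]
    exact hli.comp e.symm e.symm.injective
  have hCd : C.det ≠ 0 := ((Matrix.isUnit_iff_isUnit_det C).1 hCu).ne_zero
  have hdet : C.det * A.det * C.det = -B.det := by
    have h3 := congrArg Matrix.det hCAC
    rw [Matrix.det_reindex_self, Matrix.det_fromBlocks_zero₂₁, Matrix.det_mul, Matrix.det_mul,
      Matrix.det_transpose, Matrix.det_fin_two_of] at h3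
    rw [h3]
    ring
  refine ⟨m, hrank, B, C, ?_, ?_, hCd, ?_⟩
  · ext k l
    exact bl_comm hA _ _
  · intro h0
    rw [h0, neg_zero] at hdet
    exact mul_ne_zero (mul_ne_zero hCd hd) hCd hdet
  · rw [hCAC]
    rfl

end Pool.Agent.H89.SAB
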