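import Pool.Agent.H32.SAB.Targets

/-!
# Row PIRR: irreducible polynomials remain irreducible over the field of rational functions
-/

set_option autoImplicit false

open Polynomial Matrix Pool.Agent.H32.SAB

namespace Pool.Agent.H89.SAB

theorem pf_IRR : T_IRR := by
  intro k _ p hp
  have h1 : Prime p := hp.prime
  have h2 : Prime (C p : k[X][X]) := Polynomial.prime_C_iff.2 h1
  have h3 : Prime (p.map C : k[X][X]) := by
    have h4 := (MulEquiv.prime_iff (Polynomial.Bivariate.swap (R := k))).2 h2
    rwa [Polynomial.Bivariate.swap_C] at h4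
  have hprim : (p.map C : k[X][X]).IsPrimitive := by
    intro r hr
    rw [Polynomial.C_dvd_iff_dvd_coeff] at hr
    have h5 := hr p.natDegree
    rw [Polynomial.coeff_map] at h5
    refine isUnit_of_dvd_unit h5 (Polynomial.isUnit_C.2 ?_)
    rw [isUnit_iff_ne_zero, Ne, Polynomial.coeff_natDegree, Polynomial.leadingCoeff_eq_zero]
    exact hp.ne_zero
  have h6 := (hprim.irreducible_iff_irreducible_map_fraction_map (K := RatFunc k)).1
    h3.irreducible
  rw [Polynomial.map_map] at h6
  have h7 : (algebraMap k[X] (RatFunc k)).comp C = algebraMap k (RatFunc k) := by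
    ext x
    rw [RingHom.comp_apply, IsScalarTower.algebraMap_apply k k[X] (RatFunc k)]
    rfl
  rwa [h7] at h6

end Pool.Agent.H89.SAB
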